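import Pool.Agent.Z125.UN.MotUni
import Pool.Agent.Z125.UN.Dim2

/-!
# Kummer coverings and products of locally closed subschemes of affine spaces
-/

set_option autoImplicit false

open MvPolynomial TensorProduct Pool.Agent.Z125.UN Pool.Agent.Y116.UV

namespace Pool.Agent.Q200.SFC

section scale

variable {k : Type} [CommRing k] {σ : Type} {A : Type} [CommRing A] [Algebra k A]

/-- The value of a weighted homogeneous polynomial at a scaled point. -/
lemma aeval_scale {F : MvPolynomial σ k} {w : σ → ℕ} {N : ℕ} (hF : IsWeightedHomogeneous w F N)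
    (s : A) (x : σ → A) : aeval (fun i => s ^ w i * x i) F = s ^ N * aeval x F := by
  rw [aeval_def, aeval_def, eval₂_eq, eval₂_eq, Finset.mul_sum]
  refine Finset.sum_congr rfl fun d hd => ?_
  have h1 : Finsupp.weight w d = N := hF (mem_support_iff.1 hd)
  have h2 : ∏ i ∈ d.support, (s ^ w i * x i) ^ d i = s ^ N * ∏ i ∈ d.support, x i ^ d i := by
    simp only [mul_pow]
    rw [Finset.prod_mul_distrib]
    congr 1
    rw [← h1, Finsupp.weight_apply, Finsupp.sum, ← Finset.prod_pow_eq_pow_sum]
    refine Finset.prod_congr rfl fun i _ => ?_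
    rw [← pow_mul, smul_eq_mul, mul_comm]
  rw [h2]
  ring

end scale

variable {R : Type} [CommRing R]

section kummer

variable {σ κ : Type} (G : κ → MvPolynomial σ R) (w e : MvPolynomial σ R) (N : ℕ)

/-- The relations of the covering `s ^ N = e`. -/
noncomputable def kr : Option κ → MvPolynomial (σ ⊕ Unit) R :=
  adj (rl G Unit) (X (Sum.inr ()) ^ N - rename Sum.inl e)

/-- the functions of the base on the covering -/
noncomputable def kbase : Pc G w →ₐ[R] Pc (kr G e N) (rename Sum.inl w) :=
  pcLift G w (fun s => pv (kr G e N) (rename Sum.inl w) (Sum.inl s))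
    (fun j => by
      have h := pc_rel (kr G e N) (rename Sum.inl w) (some j)
      change pc _ _ (rl G Unit j) = 0 at h
      rw [← pc_aeval, rl, aeval_rename] at h
      exact h)
    (by
      have h := pc_unit (kr G e N) (rename Sum.inl w)
      rw [← pc_aeval, aeval_rename] at h
      exact h)

lemma kbase_pv (s : σ) : kbase G w e N (pv G w s) =
    pv (kr G e N) (rename Sum.inl w) (Sum.inl s) := pcLift_pv _ _ _ _ _ _

lemma kbase_pc (p : MvPolynomial σ R) : kbase G w e N (pc G w p) =
    pc (kr G e N) (rename Sum.inl w) (rename Sum.inl p) := by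
  rw [kbase, pcLift_pc, ← pc_aeval, aeval_rename]
  rfl

/-- from the covering as an extension ring -/
noncomputable def kF : AdjoinRoot (Polynomial.X ^ N - Polynomial.C (pc G w e)) →ₐ[R]
    Pc (kr G e N) (rename Sum.inl w) :=
  AdjoinRoot.liftAlgHom _ (kbase G w e N) (pv (kr G e N) (rename Sum.inl w) (Sum.inr ())) (by
    rw [Polynomial.eval₂_sub, Polynomial.eval₂_pow, Polynomial.eval₂_X, Polynomial.eval₂_C]
    have h := pc_rel (kr G e N) (rename Sum.inl w) none
    change pc _ _ (X (Sum.inr ()) ^ N - rename Sum.inl e) = 0 at h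
    rw [map_sub, map_pow] at h
    change _ - kbase G w e N (pc G w e) = 0
    rw [kbase_pc]
    exact h)

/-- to the covering as an extension ring -/
noncomputable def kG : Pc (kr G e N) (rename Sum.inl w) →ₐ[R]
    AdjoinRoot (Polynomial.X ^ N - Polynomial.C (pc G w e)) :=
  pcLift (kr G e N) (rename Sum.inl w)
    (Sum.elim (fun s => AdjoinRoot.ofAlgHom R _ (pv G w s)) fun _ => AdjoinRoot.root _)
    (by
      rintro (_ | j)
      · change aeval _ (X (Sum.inr ()) ^ N - rename Sum.inl e) = 0
        rw [map_sub, map_pow, aeval_X, aeval_rename]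
        change (AdjoinRoot.root _) ^ N - aeval (fun s => AdjoinRoot.ofAlgHom R _ (pv G w s)) e = 0
        rw [aeval_pv_comp]
        have h := AdjoinRoot.eval₂_root (Polynomial.X ^ N - Polynomial.C (pc G w e))
        rw [Polynomial.eval₂_sub, Polynomial.eval₂_pow, Polynomial.eval₂_X,
          Polynomial.eval₂_C] at h
        exact h
      · change aeval _ (rl G Unit j) = 0
        rw [rl, aeval_rename]
        change aeval (fun s => AdjoinRoot.ofAlgHom R _ (pv G w s)) (G j) = 0
        rw [aeval_pv_comp, pc_rel, map_zero])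
    (by
      rw [aeval_rename]
      change IsUnit (aeval (fun s => AdjoinRoot.ofAlgHom R _ (pv G w s)) w)
      rw [aeval_pv_comp]
      exact (pc_unit G w).map _)

lemma kF_of (x : Pc G w) : kF G w e N (AdjoinRoot.of _ x) = kbase G w e N x :=
  AdjoinRoot.liftAlgHom_of _ _ _ _ _

lemma kF_root : kF G w e N (AdjoinRoot.root _) =
    pv (kr G e N) (rename Sum.inl w) (Sum.inr ()) := AdjoinRoot.liftAlgHom_root _ _ _ _

lemma kG_inl (s : σ) : kG G w e N (pv _ _ (Sum.inl s)) = AdjoinRoot.ofAlgHom R _ (pv G w s) :=
  pcLift_pv _ _ _ _ _ _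

lemma kG_inr : kG G w e N (pv _ _ (Sum.inr ())) = AdjoinRoot.root _ := pcLift_pv _ _ _ _ _ _

/-- The two descriptions of the covering. -/
noncomputable def kE : AdjoinRoot (Polynomial.X ^ N - Polynomial.C (pc G w e)) ≃ₐ[R]
    Pc (kr G e N) (rename Sum.inl w) :=
  AlgEquiv.ofAlgHom (kF G w e N) (kG G w e N)
    (by
      apply pc_ext
      rintro (s | ⟨⟩)
      · rw [AlgHom.comp_apply, kG_inl]
        change kF G w e N (AdjoinRoot.of _ (pv G w s)) = _
        rw [kF_of, kbase_pv]
        rfl
      · rw [AlgHom.comp_apply, kG_inr, kF_root]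
        rfl)
    (by
      apply AdjoinRoot.algHom_ext'
      · apply pc_ext
        intro s
        change kG G w e N (kF G w e N (AdjoinRoot.of _ (pv G w s))) = AdjoinRoot.of _ (pv G w s)
        rw [kF_of, kbase_pv, kG_inl]
        rfl
      · change kG G w e N (kF G w e N (AdjoinRoot.root _)) = AdjoinRoot.root _
        rw [kF_root, kG_inr])

end kummer

section tensor

variable {σ κ σ' κ' : Type} (G : κ → MvPolynomial σ R) (w : MvPolynomial σ R)
  (G' : κ' → MvPolynomial σ' R) (w' : MvPolynomial σ' R)

/-- the relations in the two sets of variables -/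
noncomputable def two : κ ⊕ κ' → MvPolynomial (σ ⊕ σ') R :=
  Sum.elim (fun j => rename Sum.inl (G j)) (fun j => rename Sum.inr (G' j))

/-- the product of the inverted functions -/
noncomputable def bw : MvPolynomial (σ ⊕ σ') R := rename Sum.inl w * rename Sum.inr w'

/-- the first inclusion -/
noncomputable def tl : Pc G w →ₐ[R] Pc (two G G') (bw w w') :=
  pcLift G w (fun s => pv (two G G') (bw w w') (Sum.inl s))
    (fun j => by
      have h := pc_rel (two G G') (bw w w') (Sum.inl j)
      change pc _ _ (rename Sum.inl (G j)) = 0 at h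
      rw [← pc_aeval, aeval_rename] at h
      exact h)
    (by
      have h := pc_unit_left (two G G') (rename Sum.inl w) (rename Sum.inr w')
      rw [← pc_aeval, aeval_rename] at h
      exact h)

/-- the second inclusion -/
noncomputable def tr : Pc G' w' →ₐ[R] Pc (two G G') (bw w w') :=
  pcLift G' w' (fun s => pv (two G G') (bw w w') (Sum.inr s))
    (fun j => by
      have h := pc_rel (two G G') (bw w w') (Sum.inr j)
      change pc _ _ (rename Sum.inr (G' j)) = 0 at h
      rw [← pc_aeval, aeval_rename] at h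
      exact h)
    (by
      have h := pc_unit_right (two G G') (rename Sum.inl w) (rename Sum.inr w')
      rw [← pc_aeval, aeval_rename] at h
      exact h)

lemma tl_pv (s : σ) : tl G w G' w' (pv _ _ s) = pv _ _ (Sum.inl s) := pcLift_pv _ _ _ _ _ _

lemma tr_pv (s : σ') : tr G w G' w' (pv _ _ s) = pv _ _ (Sum.inr s) := pcLift_pv _ _ _ _ _ _

/-- from the tensor product -/
noncomputable def tF : Pc G w ⊗[R] Pc G' w' →ₐ[R] Pc (two G G') (bw w w') :=
  Algebra.TensorProduct.lift (tl G w G' w') (tr G w G' w') fun _ _ => Commute.all _ _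

/-- to the tensor product -/
noncomputable def tG : Pc (two G G') (bw w w') →ₐ[R] Pc G w ⊗[R] Pc G' w' :=
  pcLift (two G G') (bw w w')
    (Sum.elim
      (fun s => (Algebra.TensorProduct.includeLeft : Pc G w →ₐ[R] _) (pv G w s))
      (fun s => (Algebra.TensorProduct.includeRight : Pc G' w' →ₐ[R] _) (pv G' w' s)))
    (by
      rintro (j | j)
      · change aeval _ (rename Sum.inl (G j)) = 0
        rw [aeval_rename]
        change aeval (fun s => (Algebra.TensorProduct.includeLeft : Pc G w →ₐ[R] _) (pv G w s))
          (G j) = 0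
        rw [aeval_pv_comp, pc_rel, map_zero]
      · change aeval _ (rename Sum.inr (G' j)) = 0
        rw [aeval_rename]
        change aeval (fun s => (Algebra.TensorProduct.includeRight : Pc G' w' →ₐ[R] _)
          (pv G' w' s)) (G' j) = 0
        rw [aeval_pv_comp, pc_rel, map_zero])
    (by
      rw [bw, map_mul, aeval_rename, aeval_rename]
      refine IsUnit.mul ?_ ?_
      · change IsUnit (aeval (fun s => (Algebra.TensorProduct.includeLeft : Pc G w →ₐ[R] _)
          (pv G w s)) w)
        rw [aeval_pv_comp]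
        exact (pc_unit G w).map _
      · change IsUnit (aeval (fun s => (Algebra.TensorProduct.includeRight : Pc G' w' →ₐ[R] _)
          (pv G' w' s)) w')
        rw [aeval_pv_comp]
        exact (pc_unit G' w').map _)

lemma tG_inl (s : σ) : tG G w G' w' (pv _ _ (Sum.inl s)) = pv G w s ⊗ₜ 1 := pcLift_pv _ _ _ _ _ _

lemma tG_inr (s : σ') : tG G w G' w' (pv _ _ (Sum.inr s)) = 1 ⊗ₜ pv G' w' s :=
  pcLift_pv _ _ _ _ _ _

/-- The ring of functions on a product. -/
noncomputable def tE : Pc G w ⊗[R] Pc G' w' ≃ₐ[R] Pc (two G G') (bw w w') :=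
  AlgEquiv.ofAlgHom (tF G w G' w') (tG G w G' w')
    (by
      apply pc_ext
      rintro (s | s)
      · rw [AlgHom.comp_apply, tG_inl, tF, Algebra.TensorProduct.lift_tmul, tl_pv, map_one,
          mul_one]
        rfl
      · rw [AlgHom.comp_apply, tG_inr, tF, Algebra.TensorProduct.lift_tmul, tr_pv, map_one,
          one_mul]
        rfl)
    (by
      apply Algebra.TensorProduct.ext
      · apply pc_ext
        intro s
        change tG G w G' w' (tF G w G' w' (pv G w s ⊗ₜ 1)) = pv G w s ⊗ₜ 1
        rw [tF, Algebra.TensorProduct.lift_tmul, tl_pv, map_one, mul_one, tG_inl]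
      · apply pc_ext
        intro s
        change tG G w G' w' (tF G w G' w' (1 ⊗ₜ pv G' w' s)) = 1 ⊗ₜ pv G' w' s
        rw [tF, Algebra.TensorProduct.lift_tmul, tr_pv, map_one, one_mul, tG_inr])

end tensor

end Pool.Agent.Q200.SFC
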